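import Pool.Agent.H59.Tal.Slice

/-! Module M3 of MP_324c10_co: the induction on the dimension. -/

set_option autoImplicit false

open Finset Real

namespace Pool.Agent.H59.Tal

open Pool.Agent.H58.Tal

lemma Gam_one (s : ℝ) : Gam 1 s = Real.log 2 * s ^ 2 := by
  unfold Gam Nv
  have e : (1 + 1 : ℝ) = ((2 : ℕ) : ℝ) := by norm_num
  rw [e, Real.rpow_natCast, Real.rpow_natCast, Real.rpow_one]
  ring

lemma Gam_zero (v : ℝ) : Gam v 0 = 0 := by
  unfold Gam Nv; simp

lemma Gam_neg (v s : ℝ) : Gam v (-s) = Gam v s := by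
  unfold Gam Nv
  rw [show (1 + -s) = 1 - s by ring, show (1 - -s) = 1 + s by ring, add_comm]

lemma Gam_abs (v s : ℝ) : Gam v |s| = Gam v s := by
  rcases abs_choice s with h | h <;> rw [h]
  exact Gam_neg v s

lemma Gam_at_one (v : ℝ) (hv : 0 < v) : Gam v 1 = Real.log 2 := by
  unfold Gam Nv
  rw [sub_self, Real.zero_rpow (by linarith), show (1 + 1 : ℝ) = 2 by norm_num,
    Real.rpow_add (by norm_num), Real.rpow_one]
  have h : (2 : ℝ) ^ v - 1 ≠ 0 := by
    have := Real.one_lt_rpow (x := 2) (by norm_num) hv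
    linarith
  rw [show (2 * (2 : ℝ) ^ v + 0) / 2 - 1 = 2 ^ v - 1 by ring]
  field_simp

lemma log_two_bd : 1386 / 1000 < 2 * Real.log 2 := by
  have := Real.log_two_gt_d9; linarith

lemma t_log_two (t : ℝ) (h0 : 0 ≤ t) (h1 : t ≤ 1) : t * Real.log 2 ≤ Real.log (1 + t) := by
  have h := convexOn_exp.2 (Set.mem_univ (Real.log 2)) (Set.mem_univ (0 : ℝ)) h0
    (sub_nonneg.2 h1) (by ring)
  simp only [smul_eq_mul, mul_zero, add_zero, Real.exp_zero, mul_one, Real.exp_log (show (0:ℝ) < 2 by norm_num)] at h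
  rw [Real.le_log_iff_exp_le (by linarith)]
  linarith

/-- numeric part of the direct case -/
lemma direct_numeric (δ t : ℝ) (ht0 : 0 < t) (ht1 : t ≤ 1) (h0 : 0 ≤ δ) (h1 : δ < Real.log (1 + t)) :
    Real.log 2 * (t ^ 2 + Real.exp δ * (2 - t)) ≤ δ + 2 * Real.log 2 := by
  set L := Real.log (1 + t) with hL
  have hLpos : 0 < L := Real.log_pos (by linarith)
  have hlog2 : 0 < Real.log 2 := Real.log_pos (by norm_num)
  set a := δ / L with ha
  have ha0 : 0 ≤ a := div_nonneg h0 hLpos.le
  have ha1 : a ≤ 1 := by rw [ha, div_le_one hLpos]; exact h1.le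
  have hδ : δ = a * L := by rw [ha]; field_simp
  have hexp : Real.exp δ ≤ 1 + a * t := by
    have h := convexOn_exp.2 (Set.mem_univ L) (Set.mem_univ (0 : ℝ)) ha0
      (sub_nonneg.2 ha1) (by ring)
    simp only [smul_eq_mul, mul_zero, add_zero, Real.exp_zero, mul_one] at h
    rw [hL, Real.exp_log (by linarith)] at h
    rw [hδ, hL]
    linarith
  have htl := t_log_two t ht0.le ht1
  rw [← hL] at htl
  have h2 : t ^ 2 + Real.exp δ * (2 - t) ≤ 2 + a * t := by
    have : Real.exp δ * (2 - t) ≤ (1 + a * t) * (2 - t) :=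
      mul_le_mul_of_nonneg_right hexp (by linarith)
    nlinarith [mul_nonneg (mul_nonneg ht0.le (sub_nonneg.2 ht1)) (sub_nonneg.2 ha1)]
  calc Real.log 2 * (t ^ 2 + Real.exp δ * (2 - t)) ≤ Real.log 2 * (2 + a * t) :=
        mul_le_mul_of_nonneg_left h2 hlog2.le
    _ = a * (t * Real.log 2) + 2 * Real.log 2 := by ring
    _ ≤ a * L + 2 * Real.log 2 := by
        have := mul_le_mul_of_nonneg_left htl ha0
        linarith
    _ = δ + 2 * Real.log 2 := by rw [hδ]

/-- the average of two nonnegative functions -/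
lemma mean_mul_th_avg {n : ℕ} (u w : (Fin n → Bool) → ℝ) (hu : ∀ x, 0 ≤ u x) (hw : ∀ x, 0 ≤ w x)
    (i : Fin n) :
    mean (fun x => (1 / 2) * (u x + w x)) * th (fun x => (1 / 2) * (u x + w x)) i =
      (mean u * th u i + mean w * th w i) / 2 := by
  rw [mean_mul_th _ (fun x => by have := hu x; have := hw x; positivity), mean_mul_th u hu,
    mean_mul_th w hw, hmean_sub, hmean_sub, hmean_sub]
  have e : (fun x => (1 / 2) * (u x + w x) * chi i x) =
      fun x => (1 / 2) * (u x * chi i x + w x * chi i x) := by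
    funext x; ring
  rw [e, mean_smul, mean_add]; ring

/-- One step of the induction, with oriented slices. -/
lemma step {n : ℕ} (ep : ℝ → ℝ) (hep : Traj ep) (h7 : M7a) (hcl : Closure ep)
    (ih : ∀ (f : (Fin n → Bool) → ℝ) (l : ℝ), (∀ x, 0 ≤ f x ∧ f x ≤ 1) → 2 * Real.log 2 ≤ l →
      mean f = Real.exp (-l) → ∑ i, Gam (ep l) (th f i) ≤ l)
    (u w : (Fin n → Bool) → ℝ) (hu : ∀ x, 0 ≤ u x ∧ u x ≤ 1) (hw : ∀ x, 0 ≤ w x ∧ w x ≤ 1)
    (l t : ℝ) (ht0 : 0 < t) (ht1 : t ≤ 1) (hl : 2 * Real.log 2 ≤ l)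
    (hmu : mean u = Real.exp (-l) * (1 + t)) (hmw : mean w = Real.exp (-l) * (1 - t)) :
    Gam (ep l) t + ∑ i, Gam (ep l) ((1 + t) / 2 * th u i + (1 - t) / 2 * th w i) ≤ l := by
  have hlog2 : 0 < Real.log 2 := Real.log_pos (by norm_num)
  have hl2 := log_two_bd
  have hlpos : 27 / 20 < l := by linarith
  have hep0 := hep.pos l hlpos
  have hep1 := (hep.lt_one l hlpos).le
  have hthu := fun i => th_mem u (fun x => (hu x).1) i
  have hthw := fun i => th_mem w (fun x => (hw x).1) i
  have hcomb : ∀ i, (1 + t) / 2 * th u i + (1 - t) / 2 * th w i ∈ Set.Icc (-1 : ℝ) 1 := by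
    intro i
    obtain ⟨a1, a2⟩ := hthu i
    obtain ⟨b1, b2⟩ := hthw i
    constructor
    · nlinarith [mul_nonneg (show (0:ℝ) ≤ 1 + t by linarith) (show 0 ≤ th u i + 1 by linarith),
        mul_nonneg (show (0:ℝ) ≤ 1 - t by linarith) (show 0 ≤ th w i + 1 by linarith)]
    · nlinarith [mul_nonneg (show (0:ℝ) ≤ 1 + t by linarith) (show 0 ≤ 1 - th u i by linarith),
        mul_nonneg (show (0:ℝ) ≤ 1 - t by linarith) (show 0 ≤ 1 - th w i by linarith)]
  by_cases hdir : l - Real.log (1 + t) < 2 * Real.log 2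
  · -- direct case
    have hG : ∀ s : ℝ, s ∈ Set.Icc (-1 : ℝ) 1 → Gam (ep l) s ≤ Real.log 2 * s ^ 2 := by
      intro s hs
      rw [← Gam_one]
      exact h7.1 (ep l) 1 s hep0 hep1 le_rfl hs
    set g : (Fin n → Bool) → ℝ := fun x => (1 / 2) * (u x + w x) with hg
    have hg0 : ∀ x, 0 ≤ g x := fun x => by
      have := (hu x).1; have := (hw x).1; simp only [hg]; positivity
    have hmg : mean g = Real.exp (-l) := by
      rw [hg, mean_smul, mean_add, hmu, hmw]; ring
    have hE : 0 < Real.exp (-l) := Real.exp_pos _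
    have hthg : ∀ i, th g i = (1 + t) / 2 * th u i + (1 - t) / 2 * th w i := by
      intro i
      have h := mean_mul_th_avg u w (fun x => (hu x).1) (fun x => (hw x).1) i
      rw [← hg, hmg, hmu, hmw] at h
      have h' : Real.exp (-l) * th g i =
          Real.exp (-l) * ((1 + t) / 2 * th u i + (1 - t) / 2 * th w i) := by
        rw [h]; ring
      exact mul_left_cancel₀ hE.ne' h'
    have hb := bessel_odd g hg0
    have hsq : mean (fun x => g x ^ 2) ≤ Real.exp (-l) * (2 - t) / 2 := by
      have : mean (fun x => g x ^ 2) ≤ mean (fun x => (1 / 4) * (u x + 3 * w x)) := by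
        apply mean_mono
        intro x
        obtain ⟨a1, a2⟩ := hu x
        obtain ⟨b1, b2⟩ := hw x
        simp only [hg]
        nlinarith [mul_nonneg a1 (sub_nonneg.2 a2), mul_nonneg b1 (sub_nonneg.2 b2),
          mul_nonneg b1 (sub_nonneg.2 a2)]
      refine this.trans (le_of_eq ?_)
      rw [mean_smul, mean_add, mean_smul, hmu, hmw]; ring
    have hsum : ∑ i, (th g i) ^ 2 ≤ Real.exp (l - 2 * Real.log 2) * (2 - t) := by
      have e1 : ∑ i, (mean g * th g i) ^ 2 = Real.exp (-l) ^ 2 * ∑ i, (th g i) ^ 2 := by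
        rw [Finset.mul_sum]; apply Finset.sum_congr rfl; intro i _; rw [hmg]; ring
      rw [e1] at hb
      have e2 : Real.exp (l - 2 * Real.log 2) = 1 / (4 * Real.exp (-l)) := by
        rw [Real.exp_sub, Real.exp_neg]
        have : Real.exp (2 * Real.log 2) = 4 := by
          rw [two_mul, Real.exp_add, Real.exp_log (by norm_num)]; norm_num
        rw [this]
        field_simp
      have h3 : Real.exp (-l) ^ 2 * ∑ i, (th g i) ^ 2 ≤ Real.exp (-l) * (2 - t) / 4 := by linarith
      rw [e2]
      have h4 : Real.exp (-l) * (Real.exp (-l) * ∑ i, (th g i) ^ 2) ≤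
          Real.exp (-l) * ((2 - t) / 4) := by
        calc _ = Real.exp (-l) ^ 2 * ∑ i, (th g i) ^ 2 := by ring
          _ ≤ _ := h3
          _ = _ := by ring
      have h5 := le_of_mul_le_mul_left h4 hE
      rw [div_mul_eq_mul_div, le_div_iff₀ (by positivity)]
      nlinarith
    have hδ0 : 0 ≤ l - 2 * Real.log 2 := by linarith
    have hnum := direct_numeric (l - 2 * Real.log 2) t ht0 ht1 hδ0 (by linarith)
    calc Gam (ep l) t + ∑ i, Gam (ep l) ((1 + t) / 2 * th u i + (1 - t) / 2 * th w i)
        ≤ Real.log 2 * t ^ 2 + ∑ i, Real.log 2 * (th g i) ^ 2 := by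
          apply add_le_add (hG t ⟨by linarith, ht1⟩)
          apply Finset.sum_le_sum
          intro i _
          rw [hthg i]
          exact hG _ (hcomb i)
      _ = Real.log 2 * (t ^ 2 + ∑ i, (th g i) ^ 2) := by rw [← Finset.mul_sum]; ring
      _ ≤ Real.log 2 * (t ^ 2 + Real.exp (l - 2 * Real.log 2) * (2 - t)) := by
          apply mul_le_mul_of_nonneg_left _ hlog2.le
          linarith
      _ ≤ (l - 2 * Real.log 2) + 2 * Real.log 2 := hnum
      _ = l := by ring
  push Not at hdir
  rcases ht1.eq_or_lt with rfl | ht1'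
  · -- t = 1
    have e2 : Real.log (1 + 1) = Real.log 2 := by norm_num
    rw [e2] at hdir
    have hmu' : mean u = Real.exp (-(l - Real.log 2)) := by
      rw [hmu, neg_sub, Real.exp_sub, Real.exp_log (by norm_num), Real.exp_neg]
      ring
    have hih := ih u (l - Real.log 2) hu hdir hmu'
    have hl' : 27 / 20 < l - Real.log 2 := by linarith
    have hle := hep.anti (l - Real.log 2) l hl' (by linarith)
    have h1 : ∀ i, Gam (ep l) ((1 + 1) / 2 * th u i + (1 - 1) / 2 * th w i) ≤
        Gam (ep (l - Real.log 2)) (th u i) := by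
      intro i
      have : (1 + 1 : ℝ) / 2 * th u i + (1 - 1) / 2 * th w i = th u i := by ring
      rw [this]
      exact h7.1 _ _ _ hep0 hle (hep.lt_one _ hl').le (hthu i)
    have h2 := Finset.sum_le_sum (s := Finset.univ) fun i _ => h1 i
    rw [Gam_at_one _ hep0]
    linarith
  · -- 0 < t < 1
    obtain ⟨g, hg0, hg1, hxy, hG⟩ := hcl l t ht0 ht1' hdir
    have hmu' : mean u = Real.exp (-(l - Real.log (1 + t))) := by
      rw [hmu, neg_sub, Real.exp_sub, Real.exp_log (by linarith), Real.exp_neg]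
      ring
    have hmw' : mean w = Real.exp (-(l - Real.log (1 - t))) := by
      rw [hmw, neg_sub, Real.exp_sub, Real.exp_log (by linarith), Real.exp_neg]
      ring
    have hneg : Real.log (1 - t) < 0 := Real.log_neg (by linarith) (by linarith)
    have ihu := ih u _ hu hdir hmu'
    have ihw := ih w _ hw (by linarith) hmw'
    have h1 : ∑ i, Gam (ep l) ((1 + t) / 2 * th u i + (1 - t) / 2 * th w i) ≤
        g * ∑ i, Gam (ep (l - Real.log (1 + t))) (th u i) +
        (1 - g) * ∑ i, Gam (ep (l - Real.log (1 - t))) (th w i) := by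
      rw [Finset.mul_sum, Finset.mul_sum, ← Finset.sum_add_distrib]
      apply Finset.sum_le_sum
      intro i _
      exact hxy _ _ (hthu i) (hthw i)
    have h2 := mul_le_mul_of_nonneg_left ihu hg0
    have h3 := mul_le_mul_of_nonneg_left ihw (sub_nonneg.2 hg1)
    have h4 : g * (l - Real.log (1 + t)) + (1 - g) * (l - Real.log (1 - t)) =
        l - (g * Real.log (1 + t) + (1 - g) * Real.log (1 - t)) := by ring
    linarith

theorem m3 : M3 := by
  intro ep hep h7 hcl n
  induction n with
  | zero =>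
    intro f l _ hl _
    have := log_two_bd
    simp; linarith
  | succ n ih =>
    intro f l hf hl hm
    have hlog := log_two_bd
    by_cases hall : ∀ i, th f i = 0
    · have : ∑ i, Gam (ep l) (th f i) = 0 := by
        apply Finset.sum_eq_zero
        intro i _
        rw [hall i, Gam_zero]
      rw [this]; linarith
    push Not at hall
    obtain ⟨j, hj⟩ := hall
    have hf0 : ∀ x, 0 ≤ f x := fun x => (hf x).1
    have hE : 0 < Real.exp (-l) := Real.exp_pos _
    have hmpos : 0 < mean f := by rw [hm]; exact hE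
    have hms := mean_slice f j
    have hths := th_self f j
    have hsucc := fun i => th_succAbove f hf0 j i hmpos
    have hmem := th_mem f hf0 j
    rw [Fin.sum_univ_succAbove _ j]
    have hT : mean (sl f j true) = Real.exp (-l) * (1 + th f j) := by
      rw [hths, ← hm]
      field_simp
      linarith
    have hF : mean (sl f j false) = Real.exp (-l) * (1 - th f j) := by
      rw [hths, ← hm]
      field_simp
      linarith
    have hsl : ∀ a x, 0 ≤ sl f j a x ∧ sl f j a x ≤ 1 := fun a x => hf _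
    rcases lt_or_gt_of_ne hj with hneg | hpos
    · -- th f j < 0
      have h := step ep hep h7 hcl ih (sl f j false) (sl f j true) (hsl _) (hsl _) l (-(th f j))
        (by linarith) (by linarith [hmem.1]) hl (by rw [hF]; ring) (by rw [hT]; ring)
      rw [Gam_neg] at h
      refine le_trans (le_of_eq ?_) h
      congr 1
      apply Finset.sum_congr rfl
      intro i _
      congr 1
      rw [hsucc i, hT, hF, hm]
      field_simp
      ring
    · have h := step ep hep h7 hcl ih (sl f j true) (sl f j false) (hsl _) (hsl _) l (th f j)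
        hpos hmem.2 hl hT hF
      refine le_trans (le_of_eq ?_) h
      congr 1
      apply Finset.sum_congr rfl
      intro i _
      congr 1
      rw [hsucc i, hT, hF, hm]
      field_simp

end Pool.Agent.H59.Tal
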