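import Pool.Agent.H58.Tal.Defs

/-! Slices of functions on the cube and Bessel's inequality (module M3 of MP_324c10_co). -/

set_option autoImplicit false

open Finset Real

namespace Pool.Agent.H59.Tal

open Pool.Agent.H58.Tal

/-- the slice `x j = a` -/
def sl {n : ℕ} (f : (Fin (n + 1) → Bool) → ℝ) (j : Fin (n + 1)) (a : Bool) : (Fin n → Bool) → ℝ :=
  fun y => f (j.insertNth (α := fun _ => Bool) a y)

lemma sum_slice {n : ℕ} (f : (Fin (n + 1) → Bool) → ℝ) (j : Fin (n + 1)) :
    ∑ x, f x = ∑ y, sl f j true y + ∑ y, sl f j false y := by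
  rw [← Fintype.sum_bool (fun a => ∑ y, sl f j a y), ← Fintype.sum_prod_type']
  refine (Fintype.sum_equiv (Fin.insertNthEquiv (fun _ => Bool) j) _ _ ?_).symm
  rintro ⟨a, y⟩
  rfl

lemma mean_slice {n : ℕ} (f : (Fin (n + 1) → Bool) → ℝ) (j : Fin (n + 1)) :
    mean f = (mean (sl f j true) + mean (sl f j false)) / 2 := by
  unfold mean
  rw [sum_slice f j, pow_succ]
  field_simp

lemma hmean_self {n : ℕ} (f : (Fin (n + 1) → Bool) → ℝ) (j : Fin (n + 1)) (a : Bool) :
    hmean f j a = mean (sl f j a) := by
  unfold hmean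
  rw [sum_slice _ j]
  have h : ∀ (b : Bool) (y : Fin n → Bool),
      sl (fun x => if x j = a then f x else 0) j b y = if b = a then sl f j b y else 0 := by
    intro b y
    simp [sl]
  simp only [h]
  unfold mean
  cases a <;> simp [pow_succ] <;> field_simp

lemma hmean_succAbove {n : ℕ} (f : (Fin (n + 1) → Bool) → ℝ) (j : Fin (n + 1)) (i : Fin n) (a : Bool) :
    hmean f (j.succAbove i) a = (hmean (sl f j true) i a + hmean (sl f j false) i a) / 2 := by
  unfold hmean
  rw [sum_slice _ j]
  have h : ∀ (b : Bool) (y : Fin n → Bool),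
      sl (fun x => if x (j.succAbove i) = a then f x else 0) j b y = if y i = a then sl f j b y else 0 := by
    intro b y
    simp [sl]
  simp only [h, pow_succ]
  field_simp

lemma mean_hmean {n : ℕ} (f : (Fin n → Bool) → ℝ) (i : Fin n) :
    hmean f i true + hmean f i false = 2 * mean f := by
  unfold hmean mean
  rw [← mul_add, ← add_div, ← Finset.sum_add_distrib]
  congr 2
  apply Finset.sum_congr rfl
  intro x _
  cases x i <;> simp

lemma hmean_nonneg {n : ℕ} (f : (Fin n → Bool) → ℝ) (hf : ∀ x, 0 ≤ f x) (i : Fin n) (a : Bool) :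
    0 ≤ hmean f i a := by
  unfold hmean
  have : 0 ≤ ∑ x, (if x i = a then f x else 0) := by
    apply Finset.sum_nonneg
    intro x _
    split_ifs
    · exact hf x
    · exact le_rfl
  positivity

lemma mean_nonneg {n : ℕ} (f : (Fin n → Bool) → ℝ) (hf : ∀ x, 0 ≤ f x) : 0 ≤ mean f := by
  unfold mean
  have : 0 ≤ ∑ x, f x := Finset.sum_nonneg fun x _ => hf x
  positivity

lemma th_mem {n : ℕ} (f : (Fin n → Bool) → ℝ) (hf : ∀ x, 0 ≤ f x) (i : Fin n) :
    th f i ∈ Set.Icc (-1 : ℝ) 1 := by
  have h1 := hmean_nonneg f hf i true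
  have h2 := hmean_nonneg f hf i false
  have h3 := mean_hmean f i
  have h4 := mean_nonneg f hf
  unfold th
  rcases h4.eq_or_lt with h | h
  · rw [← h]; simp
  · constructor
    · rw [le_div_iff₀ (by linarith)]; linarith
    · rw [div_le_one (by linarith)]; linarith

lemma th_self {n : ℕ} (f : (Fin (n + 1) → Bool) → ℝ) (j : Fin (n + 1)) :
    th f j = (mean (sl f j true) - mean (sl f j false)) / (2 * mean f) := by
  unfold th
  rw [hmean_self, hmean_self]

lemma hmean_eq_zero {n : ℕ} (f : (Fin n → Bool) → ℝ) (hf : ∀ x, 0 ≤ f x) (h : mean f = 0)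
    (i : Fin n) (a : Bool) : hmean f i a = 0 := by
  have h1 := hmean_nonneg f hf i true
  have h2 := hmean_nonneg f hf i false
  have h3 := mean_hmean f i
  cases a <;> linarith

/-- `mean f * th f i` is linear. -/
lemma mean_mul_th {n : ℕ} (f : (Fin n → Bool) → ℝ) (hf : ∀ x, 0 ≤ f x) (i : Fin n) :
    mean f * th f i = (hmean f i true - hmean f i false) / 2 := by
  unfold th
  rcases (mean_nonneg f hf).eq_or_lt with h | h
  · rw [← h, hmean_eq_zero f hf h.symm, hmean_eq_zero f hf h.symm]; simp
  · field_simp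

lemma th_succAbove {n : ℕ} (f : (Fin (n + 1) → Bool) → ℝ) (hf : ∀ x, 0 ≤ f x) (j : Fin (n + 1))
    (i : Fin n) (hm : 0 < mean f) :
    th f (j.succAbove i) =
      (mean (sl f j true) / (2 * mean f)) * th (sl f j true) i +
      (mean (sl f j false) / (2 * mean f)) * th (sl f j false) i := by
  have h1 := mean_mul_th (sl f j true) (fun x => hf _) i
  have h2 := mean_mul_th (sl f j false) (fun x => hf _) i
  rw [div_mul_eq_mul_div, div_mul_eq_mul_div, h1, h2]
  unfold th
  rw [hmean_succAbove, hmean_succAbove]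
  field_simp
  ring

/-! ### Bessel -/

/-- the character `±1` -/
def chi {n : ℕ} (i : Fin n) (x : Fin n → Bool) : ℝ := if x i = true then 1 else -1

lemma chi_sq {n : ℕ} (i : Fin n) (x : Fin n → Bool) : chi i x * chi i x = 1 := by
  unfold chi; split_ifs <;> norm_num

lemma hmean_sub {n : ℕ} (f : (Fin n → Bool) → ℝ) (i : Fin n) :
    (hmean f i true - hmean f i false) / 2 = mean (fun x => f x * chi i x) := by
  unfold hmean mean
  rw [← mul_sub, ← sub_div, ← Finset.sum_sub_distrib, mul_div_right_comm]
  simp only [ne_eq, OfNat.ofNat_ne_zero, not_false_eq_true, div_self, one_mul]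
  congr 1
  apply Finset.sum_congr rfl
  intro x _
  unfold chi
  cases x i <;> simp

/-- flip one coordinate -/
def flp {n : ℕ} (i : Fin n) (x : Fin n → Bool) : Fin n → Bool := Function.update x i (!(x i))

lemma flp_flp {n : ℕ} (i : Fin n) (x : Fin n → Bool) : flp i (flp i x) = x := by
  unfold flp; ext j
  by_cases h : j = i
  · subst h; simp
  · simp [Function.update_of_ne h]

lemma sum_flp {n : ℕ} (i : Fin n) (F : (Fin n → Bool) → ℝ) : ∑ x, F (flp i x) = ∑ x, F x :=
  Fintype.sum_equiv (Function.Involutive.toPerm (flp i) (flp_flp i)) _ _ (fun _ => rfl)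

lemma mean_chi_chi {n : ℕ} (i j : Fin n) (h : i ≠ j) : mean (fun x => chi i x * chi j x) = 0 := by
  unfold mean
  have h1 := sum_flp i (fun x => chi i x * chi j x)
  have h2 : ∀ x, chi i (flp i x) * chi j (flp i x) = - (chi i x * chi j x) := by
    intro x
    have e1 : chi i (flp i x) = - chi i x := by
      unfold chi flp; simp
      cases x i <;> simp
    have e2 : chi j (flp i x) = chi j x := by
      unfold chi flp; rw [Function.update_of_ne h.symm]
    rw [e1, e2]; ring
  simp only [h2, Finset.sum_neg_distrib] at h1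
  have : ∑ x, chi i x * chi j x = 0 := by linarith
  rw [this]; simp

lemma mean_chi_sq {n : ℕ} (i : Fin n) : mean (fun x => chi i x * chi i x) = 1 := by
  unfold mean
  simp only [chi_sq]
  simp

lemma mean_add {n : ℕ} (f g : (Fin n → Bool) → ℝ) : mean (fun x => f x + g x) = mean f + mean g := by
  unfold mean; rw [Finset.sum_add_distrib, add_div]

lemma mean_sub {n : ℕ} (f g : (Fin n → Bool) → ℝ) : mean (fun x => f x - g x) = mean f - mean g := by
  unfold mean; rw [Finset.sum_sub_distrib, sub_div]

lemma mean_smul {n : ℕ} (c : ℝ) (f : (Fin n → Bool) → ℝ) : mean (fun x => c * f x) = c * mean f := by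
  unfold mean; rw [← Finset.mul_sum, mul_div_assoc]

lemma mean_mono {n : ℕ} (f g : (Fin n → Bool) → ℝ) (h : ∀ x, f x ≤ g x) : mean f ≤ mean g := by
  unfold mean
  have := Finset.sum_le_sum (s := Finset.univ) fun x _ => h x
  exact div_le_div_of_nonneg_right this (by positivity)

lemma mean_sum {n : ℕ} {ι : Type*} (s : Finset ι) (F : ι → (Fin n → Bool) → ℝ) :
    mean (fun x => ∑ i ∈ s, F i x) = ∑ i ∈ s, mean (F i) := by
  unfold mean; rw [Finset.sum_comm, Finset.sum_div]

/-- Bessel's inequality for the characters of degree one. -/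
lemma bessel {n : ℕ} (h : (Fin n → Bool) → ℝ) :
    ∑ i, (mean (fun x => h x * chi i x)) ^ 2 ≤ mean (fun x => h x ^ 2) := by
  set c : Fin n → ℝ := fun i => mean (fun x => h x * chi i x) with hc
  have key : mean (fun x => (h x - ∑ i, c i * chi i x) ^ 2) = mean (fun x => h x ^ 2) - ∑ i, c i ^ 2 := by
    have e1 : (fun x => (h x - ∑ i, c i * chi i x) ^ 2) =
        fun x => (h x ^ 2 - 2 * ∑ i, c i * (h x * chi i x)) +
          ∑ i, ∑ j, c i * c j * (chi i x * chi j x) := by
      funext x
      rw [sub_sq, sq (∑ i, c i * chi i x), Finset.sum_mul_sum]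
      congr 1
      · congr 1
        rw [Finset.mul_sum, Finset.mul_sum]
        apply Finset.sum_congr rfl; intros; ring
      · apply Finset.sum_congr rfl; intro i _
        apply Finset.sum_congr rfl; intro j _
        ring
    rw [e1, mean_add, mean_sub, mean_smul, mean_sum, mean_sum]
    have e2 : ∀ i, mean (fun x => c i * (h x * chi i x)) = c i ^ 2 := by
      intro i; rw [mean_smul, sq]
    have e3 : ∀ i, mean (fun x => ∑ j, c i * c j * (chi i x * chi j x)) = c i ^ 2 := by
      intro i
      rw [mean_sum, Finset.sum_eq_single i]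
      · rw [mean_smul, mean_chi_sq]; ring
      · intro j _ hj
        rw [mean_smul, mean_chi_chi i j hj.symm]; ring
      · intro h; exact absurd (Finset.mem_univ i) h
    simp only [e2, e3]
    ring
  have h0 : 0 ≤ mean (fun x => (h x - ∑ i, c i * chi i x) ^ 2) :=
    mean_nonneg _ fun x => sq_nonneg _
  linarith

/-- antipode -/
def anti {n : ℕ} (x : Fin n → Bool) : Fin n → Bool := fun i => !(x i)

lemma anti_anti {n : ℕ} (x : Fin n → Bool) : anti (anti x) = x := by
  funext i; simp [anti]

lemma mean_anti {n : ℕ} (F : (Fin n → Bool) → ℝ) : mean (fun x => F (anti x)) = mean F := by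
  unfold mean
  congr 1
  exact Fintype.sum_equiv (Function.Involutive.toPerm anti anti_anti) _ _ (fun _ => rfl)

/-- Bessel for nonnegative functions, with the factor `1/2` coming from parity. -/
lemma bessel_odd {n : ℕ} (g : (Fin n → Bool) → ℝ) (hg : ∀ x, 0 ≤ g x) :
    ∑ i, (mean g * th g i) ^ 2 ≤ mean (fun x => g x ^ 2) / 2 := by
  have e1 : ∀ i, mean g * th g i = mean (fun x => ((g x - g (anti x)) / 2) * chi i x) := by
    intro i
    rw [mean_mul_th g hg, hmean_sub]
    have e2 : mean (fun x => g (anti x) * chi i x) = - mean (fun x => g x * chi i x) := by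
      have := mean_anti (fun x => g (anti x) * chi i x)
      rw [← this]
      simp only [anti_anti]
      have e3 : ∀ x : Fin n → Bool, chi i (anti x) = - chi i x := by
        intro x; unfold chi anti; cases x i <;> simp
      simp only [e3]
      have := mean_smul (-1) (fun x => g x * chi i x)
      rw [neg_one_mul] at this
      rw [← this]
      congr 1; funext x; ring
    have e4 : (fun x => ((g x - g (anti x)) / 2) * chi i x) =
        fun x => (1/2) * ((g x * chi i x) - (g (anti x) * chi i x)) := by
      funext x; ring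
    rw [e4, mean_smul, mean_sub, e2]; ring
  simp only [e1]
  refine (bessel _).trans ?_
  have e5 : mean (fun x => g x ^ 2) / 2 =
      mean (fun x => (1/4) * (g x ^ 2 + g (anti x) ^ 2)) := by
    rw [mean_smul, mean_add, mean_anti (fun x => g x ^ 2)]; ring
  rw [e5]
  apply mean_mono
  intro x
  nlinarith [hg x, hg (anti x), mul_nonneg (hg x) (hg (anti x))]

end Pool.Agent.H59.Tal
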